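import Mathlib

/-!
# Primitive prime divisors of the fourth-power Franel sums

Every prime `p` is a primitive prime divisor of `f₄(n)` for exactly one `n ≥ 1`, and this `n` is at
most `p - 1`, since `p` divides `f₄(p - 1)`. As `f₄(n) ≤ 16 ^ n`, the product of the primes up to
`N + 1` is at most `16` to the sum of all `n ≤ N` for which `f₄(n)` has a primitive prime divisor. With Chebyshev's lower
bound for the product of the primes the number `c(N)` of these `n ≤ N` satisfies `N ≤ K * 7 ^ c(N)`.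
-/

set_option autoImplicit false

namespace Pool.Agent.Results.MP_21c2ec_nt.ManyPrimitive

open Finset

/-- The Franel number of order `4`. -/
def franel4 (n : ℕ) : ℕ := ∑ k ∈ range (n + 1), (n.choose k) ^ 4

/-- `p` is a primitive prime divisor of `f₄(n)`. -/
def IsPrimitive (n p : ℕ) : Prop :=
  p.Prime ∧ p ∣ franel4 n ∧ ∀ k, 1 ≤ k → k < n → ¬ p ∣ franel4 k

lemma franel4_pos (n : ℕ) : 0 < franel4 n := by
  unfold franel4
  refine Finset.sum_pos (fun k hk => ?_) ⟨0, by simp⟩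
  have : 0 < n.choose k := Nat.choose_pos (by simpa [Nat.lt_succ_iff] using hk)
  positivity

lemma franel4_le (n : ℕ) : franel4 n ≤ 16 ^ n := by
  unfold franel4
  have h1 : ∀ k ∈ range (n + 1), (n.choose k) ^ 4 ≤ n.choose k * (2 ^ n) ^ 3 := by
    intro k hk
    have h2 : n.choose k ≤ 2 ^ n := Nat.choose_le_two_pow n k
    calc (n.choose k) ^ 4 = n.choose k * (n.choose k) ^ 3 := by ring
      _ ≤ n.choose k * (2 ^ n) ^ 3 := by gcongr
  calc ∑ k ∈ range (n + 1), (n.choose k) ^ 4 ≤ ∑ k ∈ range (n + 1), n.choose k * (2 ^ n) ^ 3 :=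
        Finset.sum_le_sum h1
    _ = 2 ^ n * (2 ^ n) ^ 3 := by rw [← Finset.sum_mul, Nat.sum_range_choose]
    _ = 16 ^ n := by
        rw [show (16 : ℕ) = 2 ^ 4 by norm_num, ← pow_mul, ← pow_mul, ← pow_add]
        congr 1
        ring

/-- `p` divides `f₄(p - 1)`. -/
lemma dvd_franel4 {p : ℕ} (hp : p.Prime) : p ∣ franel4 (p - 1) := by
  have : Fact p.Prime := ⟨hp⟩
  rw [← ZMod.natCast_eq_zero_iff]
  unfold franel4
  push_cast
  have h1 : ∀ k ∈ range (p - 1 + 1), (((p - 1).choose k : ℕ) : ZMod p) ^ 4 = 1 := by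
    intro k hk
    have h2 : k ≤ p - 1 := by simpa [Nat.lt_succ_iff] using hk
    have h3 : (((p - 1).choose k : ℕ) : ZMod p) = (-1) ^ k := by
      clear hk
      induction k with
      | zero => simp
      | succ k ih =>
        have h4 := ih (by omega)
        have h5 : p.choose (k + 1) = (p - 1).choose k + (p - 1).choose (k + 1) := by
          obtain ⟨q, rfl⟩ : ∃ q, p = q + 1 := ⟨p - 1, by have := hp.pos; omega⟩
          rw [Nat.add_sub_cancel, Nat.choose_succ_succ]
        have h6 : p ∣ p.choose (k + 1) := hp.dvd_choose_self (by omega) (by omega)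
        have h7 : ((p.choose (k + 1) : ℕ) : ZMod p) = 0 := (ZMod.natCast_eq_zero_iff _ _).2 h6
        rw [h5] at h7
        push_cast at h7
        rw [h4] at h7
        rw [pow_succ]
        linear_combination h7
    rw [h3, ← pow_mul, mul_comm, pow_mul]
    norm_num
  rw [Finset.sum_congr rfl h1]
  simp only [sum_const, card_range, nsmul_eq_mul, mul_one]
  rw [Nat.sub_add_cancel hp.pos]
  exact CharP.cast_eq_zero _ _

/-- Every prime is a primitive prime divisor of exactly one `f₄(n)`, and `n ≤ p - 1`. -/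
lemma exists_n {p : ℕ} (hp : p.Prime) : ∃ n, 1 ≤ n ∧ n ≤ p - 1 ∧ IsPrimitive n p := by
  classical
  have hex : ∃ n, 1 ≤ n ∧ p ∣ franel4 n := ⟨p - 1, by have := hp.two_le; omega, dvd_franel4 hp⟩
  refine ⟨Nat.find hex, (Nat.find_spec hex).1,
    Nat.find_min' hex ⟨by have := hp.two_le; omega, dvd_franel4 hp⟩,
    hp, (Nat.find_spec hex).2, fun k hk hkn hd => Nat.find_min hex hkn ⟨hk, hd⟩⟩

/-- For large `N` the exponent in the bound for the primorial is at least `N / 5`. -/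
lemma sum_ge (s : ℕ → ℕ) (h : ∀ N, primorial (N + 1) ≤ 16 ^ s N) :
    ∃ N₀ : ℕ, ∀ N, N₀ ≤ N → N ≤ 5 * s N := by
  refine ⟨60 ^ 4, fun N hN => ?_⟩
  have h1 : Chebyshev.theta ((N + 1 : ℕ) : ℝ) ≤ s N * (4 * Real.log 2) := by
    rw [Chebyshev.theta_eq_log_primorial, Nat.floor_natCast]
    have h2 : ((primorial (N + 1) : ℕ) : ℝ) ≤ (16 : ℝ) ^ s N := by exact_mod_cast h N
    have h3 : (0 : ℝ) < (primorial (N + 1) : ℕ) := by exact_mod_cast primorial_pos (N + 1)
    have h4 := Real.log_le_log h3 h2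
    rw [Real.log_pow, show (16 : ℝ) = 2 ^ 4 by norm_num, Real.log_pow] at h4
    exact_mod_cast h4
  have h2 := Chebyshev.theta_ge (N + 1)
  obtain ⟨x, hx⟩ : ∃ x : ℝ, x = ((N + 1 : ℕ) : ℝ) := ⟨_, rfl⟩
  rw [← hx] at h1 h2
  have hx60 : (60 : ℝ) ^ 4 ≤ x := by
    rw [hx]
    have : 60 ^ 4 ≤ N + 1 := by omega
    exact_mod_cast this
  have hx0 : 0 < x := by linarith [show (0 : ℝ) < 60 ^ 4 by norm_num]
  obtain ⟨y, hy⟩ : ∃ y : ℝ, y = √(√x) := ⟨_, rfl⟩
  have hy0 : 0 < y := by rw [hy]; exact Real.sqrt_pos.2 (Real.sqrt_pos.2 hx0)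
  have hy2 : √x = y ^ 2 := by rw [hy, Real.sq_sqrt (Real.sqrt_nonneg _)]
  have hy4 : x = y ^ 4 := by
    have : x = (√x) ^ 2 := (Real.sq_sqrt hx0.le).symm
    rw [this, hy2]
    ring
  have hy60 : 60 ≤ y := by
    by_contra hcon
    push Not at hcon
    have : y ^ 4 < 60 ^ 4 := pow_lt_pow_left₀ hcon hy0.le (by norm_num)
    rw [← hy4] at this
    linarith
  have hlog : Real.log x ≤ 4 * y := by
    rw [hy4, Real.log_pow]
    have := Real.log_le_sub_one_of_pos hy0
    push_cast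
    linarith
  have hlog1 : Real.log (x + 1) ≤ 1 + 4 * y := by
    have e : Real.log (x + 1) ≤ Real.log (2 * x) := Real.log_le_log (by linarith) (by linarith)
    rw [Real.log_mul (by norm_num) hx0.ne'] at e
    have := Real.log_two_lt_d9
    linarith
  rw [hy2] at h2
  have hl2 := Real.log_two_gt_d9
  have h3 : y ^ 2 * Real.log x ≤ 4 * y ^ 3 := by
    have := mul_le_mul_of_nonneg_left hlog (sq_nonneg y)
    nlinarith
  have h4 : x * Real.log 2 - (1 + 4 * y) - 8 * y ^ 3 ≤ s N * (4 * Real.log 2) := by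
    nlinarith
  have h5 : 1 + 4 * y + 8 * y ^ 3 ≤ y ^ 4 * (Real.log 2 / 5) := by
    have h6 : (138 / 1000 : ℝ) ≤ Real.log 2 / 5 := by linarith
    have h7 : y ^ 4 * (138 / 1000) ≤ y ^ 4 * (Real.log 2 / 5) :=
      mul_le_mul_of_nonneg_left h6 (by positivity)
    have h8 : (60 : ℝ) * y ^ 3 ≤ y ^ 4 := by
      have : 0 ≤ (y - 60) * y ^ 3 := mul_nonneg (by linarith) (by positivity)
      nlinarith
    have h9 : (3600 : ℝ) * y ≤ y ^ 3 := by
      have : 0 ≤ (y ^ 2 - 3600) * y := mul_nonneg (by nlinarith) hy0.le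
      nlinarith
    nlinarith
  rw [← hy4] at h5
  have h6 : x * (4 / 5 * Real.log 2) ≤ s N * (4 * Real.log 2) := by nlinarith
  have h7 : x ≤ 5 * s N := by
    have hl : 0 < 4 / 5 * Real.log 2 := by linarith
    have : x * (4 / 5 * Real.log 2) ≤ (5 * s N) * (4 / 5 * Real.log 2) := by nlinarith
    exact le_of_mul_le_mul_right this hl
  rw [hx] at h7
  have h8 : N + 1 ≤ 5 * s N := by exact_mod_cast h7
  omega

/-- The number of the `n ≤ N` in the set grows at least logarithmically. -/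
lemma count_bound (P : ℕ → Prop) [DecidablePred P] (s : ℕ → ℕ)
    (hs : ∀ N, s N = ∑ n ∈ (Icc 1 N).filter P, n) (h : ∀ N, primorial (N + 1) ≤ 16 ^ s N) :
    ∃ K : ℝ, ∀ N : ℕ, 1 ≤ N → (N : ℝ) ≤ K * 7 ^ ((Icc 1 N).filter P).card := by
  obtain ⟨N₀, hN₀⟩ := sum_ge s h
  have key : ∀ N, s N + 1 ≤ (N₀ + 2) ^ 2 * 7 ^ ((Icc 1 N).filter P).card := by
    intro N
    induction N with
    | zero =>
      rw [hs]
      simp only [show Icc 1 0 = (∅ : Finset ℕ) from rfl, filter_empty, sum_empty, card_empty,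
        pow_zero, mul_one, zero_add]
      exact Nat.one_le_pow _ _ (by omega)
    | succ N ih =>
      have hI : Icc 1 (N + 1) = insert (N + 1) (Icc 1 N) := by
        ext x
        simp only [mem_Icc, mem_insert]
        omega
      have hnot : N + 1 ∉ (Icc 1 N).filter P := by
        simp
      by_cases hP : P (N + 1)
      · have e : (Icc 1 (N + 1)).filter P = insert (N + 1) ((Icc 1 N).filter P) := by
          rw [hI, filter_insert, if_pos hP]
        rw [hs, e, card_insert_of_notMem hnot, sum_insert hnot, ← hs, pow_succ 7]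
        rcases Nat.lt_or_ge N N₀ with h1 | h1
        · have h2 : s N + 1 ≤ (N₀ + 2) ^ 2 * 7 ^ ((Icc 1 N).filter P).card := ih
          have h3 : N + 1 ≤ (N₀ + 2) ^ 2 * 7 ^ ((Icc 1 N).filter P).card := by
            have h4 : 1 ≤ 7 ^ ((Icc 1 N).filter P).card := Nat.one_le_pow _ _ (by omega)
            nlinarith
          nlinarith
        · have h2 := hN₀ N h1
          nlinarith
      · have e : (Icc 1 (N + 1)).filter P = (Icc 1 N).filter P := by
          rw [hI, filter_insert, if_neg hP]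
        rw [hs, e, ← hs]
        exact ih
  refine ⟨5 * ((N₀ : ℝ) + 2) ^ 2, fun N hN => ?_⟩
  have h1 : ((s N : ℝ) + 1) ≤ ((N₀ : ℝ) + 2) ^ 2 * 7 ^ ((Icc 1 N).filter P).card := by
    exact_mod_cast key N
  rcases Nat.lt_or_ge N N₀ with h2 | h2
  · have h3 : (N : ℝ) ≤ N₀ := by exact_mod_cast h2.le
    have h4 : (1 : ℝ) ≤ 7 ^ ((Icc 1 N).filter P).card := one_le_pow₀ (by norm_num)
    have h5 : (0 : ℝ) ≤ N₀ := by positivity
    have h6 : ((N₀ : ℝ) + 2) ^ 2 ≤ ((N₀ : ℝ) + 2) ^ 2 * 7 ^ ((Icc 1 N).filter P).card :=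
      le_mul_of_one_le_right (by positivity) h4
    nlinarith
  · have h3 : (N : ℝ) ≤ 5 * s N := by exact_mod_cast hN₀ N h2
    nlinarith

open Classical in
theorem result :
    -- every prime is a primitive prime divisor of exactly one `f₄(n)`, and `n ≤ p - 1`
    (∀ p : ℕ, p.Prime → (∃! n, 1 ≤ n ∧ IsPrimitive n p) ∧
      ∃ n, 1 ≤ n ∧ n ≤ p - 1 ∧ IsPrimitive n p) ∧
    -- the numbers `n ≤ N` for which `f₄(n)` has a primitive prime divisor have a large sum
    (∀ N : ℕ, primorial (N + 1) ≤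
      16 ^ ∑ n ∈ (Icc 1 N).filter (fun n => ∃ p, IsPrimitive n p), n) ∧
    -- their number is at least a constant times `log N`
    (∃ K : ℝ, ∀ N : ℕ, 1 ≤ N →
      (N : ℝ) ≤ K * 7 ^ ((Icc 1 N).filter (fun n => ∃ p, IsPrimitive n p)).card) ∧
    -- there are infinitely many of them
    {n : ℕ | 1 ≤ n ∧ ∃ p, IsPrimitive n p}.Infinite := by
  have huniq : ∀ p n m : ℕ, 1 ≤ n → 1 ≤ m → IsPrimitive n p → IsPrimitive m p → n = m := by
    intro p n m hn hm h1 h2
    rcases Nat.lt_trichotomy n m with h | h | h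
    · exact absurd h1.2.1 (h2.2.2 n hn h)
    · exact h
    · exact absurd h2.2.1 (h1.2.2 m hm h)
  have hprim : ∀ N : ℕ, primorial (N + 1) ≤
      16 ^ ∑ n ∈ (Icc 1 N).filter (fun n => ∃ p, IsPrimitive n p), n := by
    intro N
    set T := (Icc 1 N).filter (fun n => ∃ p, IsPrimitive n p) with hT
    have h1 : primorial (N + 1) ∣ ∏ n ∈ T, franel4 n := by
      unfold primorial
      refine Finset.prod_primes_dvd _ (fun p hp => ?_) (fun p hp => ?_)
      · exact (Finset.mem_filter.1 hp).2.prime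
      · obtain ⟨hp1, hp2⟩ := Finset.mem_filter.1 hp
        obtain ⟨n, hn1, hn2, hn3⟩ := exists_n hp2
        have hmem : n ∈ T := by
          rw [hT, Finset.mem_filter, Finset.mem_Icc]
          have := Finset.mem_range.1 hp1
          exact ⟨⟨hn1, by omega⟩, p, hn3⟩
        exact hn3.2.1.trans (Finset.dvd_prod_of_mem _ hmem)
    have h2 : ∏ n ∈ T, franel4 n ≤ ∏ n ∈ T, 16 ^ n :=
      Finset.prod_le_prod' fun n _ => franel4_le n
    rw [Finset.prod_pow_eq_pow_sum] at h2
    exact (Nat.le_of_dvd (Finset.prod_pos fun n _ => franel4_pos n) h1).trans h2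
  refine ⟨fun p hp => ?_, hprim, count_bound _ _ (fun N => rfl) hprim, ?_⟩
  · obtain ⟨n, h1, h2, h3⟩ := exists_n hp
    exact ⟨⟨n, ⟨h1, h3⟩, fun m hm => huniq p m n hm.1 h1 hm.2 h3⟩, n, h1, h2, h3⟩
  · intro hfin
    obtain ⟨B, hB⟩ := hfin.bddAbove
    -- a prime larger than all `f₄(n)`, `n ≤ B`
    obtain ⟨p, hp1, hp2⟩ := Nat.exists_infinite_primes (16 ^ B + 1)
    obtain ⟨n, hn1, hn2, hn3⟩ := exists_n hp2
    have h1 : n ≤ B := hB ⟨hn1, p, hn3⟩
    have h2 : p ≤ franel4 n := Nat.le_of_dvd (franel4_pos n) hn3.2.1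
    have h3 := franel4_le n
    have h4 : 16 ^ n ≤ 16 ^ B := Nat.pow_le_pow_right (by norm_num) h1
    omega

end Pool.Agent.Results.MP_21c2ec_nt.ManyPrimitive
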